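import Pool.Agent.Helper89.GW.Stmts

/-! # BDD: compactly supported fields have global solutions -/

open scoped ContDiff Topology NNReal
open Set Filter

namespace GW

theorem st_BDD : ST_BDD := by
  intro F _ _ _ X hX hc x₀
  have : CompleteSpace F := FiniteDimensional.complete ℝ F
  obtain ⟨K, hK⟩ := ContDiff.lipschitzWith_of_hasCompactSupport hc hX (by simp)
  obtain ⟨C, hC⟩ := hc.exists_bound_of_continuous hX.continuous
  let L : ℝ≥0 := ⟨max C 0, le_max_right _ _⟩
  have h01 : (0 : ℝ) ∈ Icc (0 : ℝ) 1 := by simp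
  have hpl : IsPicardLindelof (fun s x => X (s, x)) (⟨0, h01⟩ : Icc (0 : ℝ) 1) x₀ L 0 L K := by
    refine ⟨fun t _ => ?_, fun x _ => ?_, fun t _ x _ => ?_, ?_⟩
    · refine LipschitzOnWith.of_dist_le_mul (fun x _ y _ => ?_)
      refine (hK.dist_le_mul (t, x) (t, y)).trans ?_
      rw [Prod.dist_eq]
      simp
    · exact (hX.continuous.comp (Continuous.prodMk_left x)).continuousOn
    · exact (hC (t, x)).trans (le_max_left _ _)
    · simp
  obtain ⟨c, hc0, hcd⟩ := hpl.exists_eq_forall_mem_Icc_hasDerivWithinAt₀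
  exact ⟨c, hc0, fun s hs => hcd s hs⟩

end GW
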