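import Pool.Agent.Helper89.GW.Stmts

/-! # ELEM: elements of the line -/

open scoped ContDiff Topology NNReal
open Set Filter

namespace GW

lemma elem_exists (x : ℝ) : ∃ e : El, e.mem x := by
  have h1 := Int.floor_le x
  have h2 := Int.lt_floor_add_one x
  by_cases ha : x < (⌊x⌋ : ℝ) + 1 / 4
  · refine ⟨El.near ⌊x⌋, ?_⟩
    show |x - (⌊x⌋ : ℝ)| < 1 / 4
    rw [abs_lt]
    constructor <;> linarith
  · by_cases hb : x ≤ (⌊x⌋ : ℝ) + 3 / 4
    · refine ⟨El.cell ⌊x⌋, ?_⟩
      show (⌊x⌋ : ℝ) + 1 / 4 ≤ x ∧ x ≤ (⌊x⌋ : ℝ) + 3 / 4
      exact ⟨not_lt.1 ha, hb⟩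
    · refine ⟨El.near (⌊x⌋ + 1), ?_⟩
      show |x - ((⌊x⌋ + 1 : ℤ) : ℝ)| < 1 / 4
      push_cast
      rw [abs_lt]
      push Not at hb
      constructor <;> linarith

theorem st_ELEM (h : ST_LAM) : ST_ELEM := by
  obtain ⟨_, _, _, _, _, hB, hL, _, _, hQ, _, _⟩ := h
  refine ⟨elem_exists, ?_⟩
  rintro (c | c) x hx
  · have hx' : |x - (c : ℝ)| < 1 / 4 := hx
    rw [abs_lt] at hx'
    obtain ⟨x1, x2⟩ := hx'
    refine ⟨fun d => ?_, fun d => ?_, fun d hd => ?_⟩
    · rw [hB]
      simp only [El.iv, List.mem_cons, List.not_mem_nil, or_false]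
      constructor
      · rintro ⟨h1, h2⟩
        by_contra hne
        have : d ≤ c - 2 ∨ c + 1 ≤ d := by omega
        rcases this with h | h
        · have : (d : ℝ) ≤ (c : ℝ) - 2 := by exact_mod_cast h
          linarith
        · have : (c : ℝ) + 1 ≤ (d : ℝ) := by exact_mod_cast h
          linarith
      · rintro (rfl | rfl)
        · push_cast
          constructor <;> linarith
        · constructor <;> linarith
    · rw [hL, abs_lt]
      simp only [El.nd, List.mem_cons, List.not_mem_nil, or_false]
      constructor
      · rintro ⟨h1, h2⟩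
        by_contra hne
        have : d ≤ c - 2 ∨ c + 2 ≤ d := by omega
        rcases this with h | h
        · have : (d : ℝ) ≤ (c : ℝ) - 2 := by exact_mod_cast h
          linarith
        · have : (c : ℝ) + 2 ≤ (d : ℝ) := by exact_mod_cast h
          linarith
      · rintro (rfl | rfl | rfl)
        · push_cast
          constructor <;> linarith
        · constructor <;> linarith
        · push_cast
          constructor <;> linarith
    · simp only [El.core, List.mem_cons, List.not_mem_nil, or_false] at hd
      subst hd
      apply hQ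
      rw [abs_le]
      constructor <;> linarith
  · have hx' : (c : ℝ) + 1 / 4 ≤ x ∧ x ≤ (c : ℝ) + 3 / 4 := hx
    obtain ⟨x1, x2⟩ := hx'
    refine ⟨fun d => ?_, fun d => ?_, fun d hd => ?_⟩
    · rw [hB]
      simp only [El.iv, List.mem_cons, List.not_mem_nil, or_false]
      constructor
      · rintro ⟨h1, h2⟩
        by_contra hne
        have : d ≤ c - 1 ∨ c + 1 ≤ d := by omega
        rcases this with h | h
        · have : (d : ℝ) ≤ (c : ℝ) - 1 := by exact_mod_cast h
          linarith
        · have : (c : ℝ) + 1 ≤ (d : ℝ) := by exact_mod_cast h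
          linarith
      · rintro rfl
        constructor <;> linarith
    · rw [hL, abs_lt]
      simp only [El.nd, List.mem_cons, List.not_mem_nil, or_false]
      constructor
      · rintro ⟨h1, h2⟩
        by_contra hne
        have : d ≤ c - 1 ∨ c + 2 ≤ d := by omega
        rcases this with h | h
        · have : (d : ℝ) ≤ (c : ℝ) - 1 := by exact_mod_cast h
          linarith
        · have : (c : ℝ) + 2 ≤ (d : ℝ) := by exact_mod_cast h
          linarith
      · rintro (rfl | rfl)
        · constructor <;> linarith
        · push_cast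
          constructor <;> linarith
    · simp only [El.core, List.mem_cons, List.not_mem_nil, or_false] at hd
      apply hQ
      rw [abs_le]
      rcases hd with rfl | rfl
      · constructor <;> linarith
      · push_cast
        constructor <;> linarith

end GW
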