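import Pool.Agent.Helper89.GW.Stmts

/-! # NP1: region 1 -/

open scoped ContDiff Topology NNReal
open Set Filter

namespace GW

set_option maxRecDepth 100000 in
lemma np1_chk1 : chk1 = true := by decide +kernel

lemma np1_els {a b : ℤ} {i : ℕ} (hi : i < (b - a + 1).toNat) :
    El.near (a + i) ∈ els a b ∧ El.cell (a + i) ∈ els a b := by
  have h1 : (i : ℤ) ∈ (List.range (b - a + 1).toNat).flatMap (fun j : ℕ => [(j : ℤ)]) := by
    rw [List.mem_flatMap]
    exact ⟨i, List.mem_range.2 hi, by simp⟩
  unfold els
  constructor <;>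
  · rw [List.mem_flatMap]
    exact ⟨(i : ℤ), h1, by simp⟩

lemma np1_allX (e : El) : e ∈ allX ∨ ∀ c ∈ e.nd, c < -7 ∨ 13 < c := by
  have hm : ∀ i : ℕ, i < 25 → El.near (-9 + i) ∈ allX ∧ El.cell (-9 + i) ∈ allX := by
    intro i hi
    exact np1_els (by simpa using hi)
  rcases e with c | c
  · by_cases hc : -9 ≤ c ∧ c ≤ 15
    · left
      have := (hm (c + 9).toNat (by omega)).1
      have h9 : (-9 + ((c + 9).toNat : ℤ)) = c := by omega
      rwa [h9] at this
    · right
      intro d hd
      simp only [El.nd, List.mem_cons, List.not_mem_nil, or_false] at hd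
      omega
  · by_cases hc : -9 ≤ c ∧ c ≤ 15
    · left
      have := (hm (c + 9).toNat (by omega)).2
      have h9 : (-9 + ((c + 9).toNat : ℤ)) = c := by omega
      rwa [h9] at this
    · right
      intro d hd
      simp only [El.nd, List.mem_cons, List.not_mem_nil, or_false] at hd
      omega

lemma np1_T (e : El) (t : ℝ) (ht : t < 15 / 4) (he : e.mem t) :
    e ∈ els (-2) 3 ∨ ∀ k ∈ e.nd, k < 0 := by
  have hm : ∀ i : ℕ, i < 6 → El.near (-2 + i) ∈ els (-2) 3 ∧ El.cell (-2 + i) ∈ els (-2) 3 := by
    intro i hi
    exact np1_els (by simpa using hi)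
  rcases e with c | c
  · have he' : |t - (c : ℝ)| < 1 / 4 := he
    rw [abs_lt] at he'
    have hc4 : c < 4 := by
      by_contra h
      push Not at h
      have : (4 : ℝ) ≤ (c : ℝ) := by exact_mod_cast h
      linarith
    by_cases hc : -2 ≤ c
    · left
      have := (hm (c + 2).toNat (by omega)).1
      have h9 : (-2 + ((c + 2).toNat : ℤ)) = c := by omega
      rwa [h9] at this
    · right
      intro d hd
      simp only [El.nd, List.mem_cons, List.not_mem_nil, or_false] at hd
      omega
  · have he' : (c : ℝ) + 1 / 4 ≤ t ∧ t ≤ (c : ℝ) + 3 / 4 := he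
    have hc4 : c < 4 := by
      by_contra h
      push Not at h
      have : (4 : ℝ) ≤ (c : ℝ) := by exact_mod_cast h
      linarith
    by_cases hc : -2 ≤ c
    · left
      have := (hm (c + 2).toNat (by omega)).2
      have h9 : (-2 + ((c + 2).toNat : ℤ)) = c := by omega
      rwa [h9] at this
    · right
      intro d hd
      simp only [El.nd, List.mem_cons, List.not_mem_nil, or_false] at hd
      omega

lemma np1_tg (T : List (List ℤ)) (c k : ℤ) (h : c < -7 ∨ 13 < c ∨ k < 0) : tg T c k = 0 := by
  unfold tg
  rw [if_neg]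
  omega

lemma np1_absent {z : ℤ → ℤ → ℤ} {X T : El} (h : ∀ c ∈ X.nd, ∀ k ∈ T.nd, z c k = 0) :
    absent z X T = true := by
  unfold absent
  rw [List.all_eq_true]
  intro c hc
  rw [List.all_eq_true]
  intro k hk
  simpa using h c hc k hk

theorem st_NP1 (hD : ST_DAT) (hE : ST_ELEM) (hS : ST_SIGN) (hR : ST_SREF) : ST_NP1 := by
  have hsup : SupI aI := hD.1.1
  have hsym : ∀ c k, aI c (24 - k) = aI c k := hD.2.1.1
  -- the lower half
  have key : ∀ x t : ℝ, t < 15 / 4 → 0 < uA (x, t) → dX uA (x, t) ≠ 0 ∨ dT uA (x, t) ≠ 0 := by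
    intro x t ht hpos
    obtain ⟨X, hX⟩ := hE.1 x
    obtain ⟨T, hT⟩ := hE.1 t
    obtain ⟨s1, s2, s3, s4, s5, _, _⟩ := hS aI X T x t hsup hX hT
    have habs : absent aI X T = true → False := by
      intro h
      have := s5 h
      unfold uA at hpos
      linarith
    rcases np1_allX X with hXm | hXn
    · rcases np1_T T t ht hT with hTm | hTn
      · have h1 := np1_chk1
        unfold chk1 at h1
        rw [List.all_eq_true] at h1
        have h2 := h1 X hXm
        rw [List.all_eq_true] at h2
        have h3 := h2 T hTm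
        unfold own at h3
        rw [Bool.or_eq_true, Bool.or_eq_true] at h3
        rcases h3 with (h3 | h3) | h3
        · exact (habs h3).elim
        · left
          unfold sSame at h3
          simp only [List.all_cons, List.all_nil, Bool.and_true, Bool.or_eq_true] at h3
          rcases h3 with h3 | h3
          · exact (s1 h3).ne'
          · exact (s2 h3).ne
        · right
          unfold rSame at h3
          simp only [List.all_cons, List.all_nil, Bool.and_true, Bool.or_eq_true] at h3
          rcases h3 with h3 | h3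
          · exact (s3 h3).ne'
          · exact (s4 h3).ne
      · exact (habs (np1_absent (fun c _ k hk => np1_tg _ c k (Or.inr (Or.inr (hTn k hk)))))).elim
    · refine (habs (np1_absent (fun c hc k _ => np1_tg _ c k ?_))).elim
      rcases hXn c hc with h | h
      · exact Or.inl h
      · exact Or.inr (Or.inl h)
  rintro ⟨x, t⟩ (ht | ht) hpos
  · exact key x t ht hpos
  · have ht' : (81 : ℝ) / 4 < t := ht
    obtain ⟨r1, r2, r3⟩ := hR aI hsup hsym x t
    have h1 : 0 < uA (x, 24 - t) := by
      unfold uA
      rw [r1]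
      exact hpos
    rcases key x (24 - t) (by linarith) h1 with h | h
    · left
      unfold uA at h ⊢
      rwa [r2] at h
    · right
      unfold uA at h ⊢
      rw [r3] at h
      intro h0
      exact h (by rw [h0, neg_zero])

end GW
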